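import Pool.Agent.Helper35.XT.Stm

/-! Package XA of project XT (helper35): the base of the model with `e p = q` algebraic. -/

set_option autoImplicit false

namespace Pool.Agent.Helper38.XT

open Set Module Pool.Agent.Helper35.EM Pool.Agent.Helper56.EM Pool.Agent.Helper56.SA
  Pool.Agent.Helper35.XT

/-- the closure is algebraically closed in `ℂ` -/
theorem cl_alg {s : Set ℂ} {b : ℂ} (h : IsAlgebraic (clF s) b) : b ∈ M.closure s := by
  have h1 := minpoly.mem_range_of_degree_eq_one (clF s) b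
    (IsAlgClosed.degree_eq_one_of_irreducible (clF s) (minpoly.irreducible h.isIntegral))
  obtain ⟨z, rfl⟩ := h1
  exact mem_cl.2 z.2

/-- comparison of coefficients in degree three -/
theorem cubic {s : Set ℂ} {b : ℂ} (hb : b ∉ M.closure s) {α β γ δ : ℂ} (hα : α ∈ M.closure s)
    (hβ : β ∈ M.closure s) (hγ : γ ∈ M.closure s) (hδ : δ ∈ M.closure s)
    (h : α * b ^ 3 + β * b ^ 2 + γ * b + δ = 0) : α = 0 ∧ β = 0 ∧ γ = 0 ∧ δ = 0 := by
  open Polynomial in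
  have key : α = 0 := by
    by_contra hne
    apply hb
    apply cl_alg
    refine ⟨C (⟨α, mem_cl.1 hα⟩ : clF s) * X ^ 3 + C ⟨β, mem_cl.1 hβ⟩ * X ^ 2 +
      C ⟨γ, mem_cl.1 hγ⟩ * X + C ⟨δ, mem_cl.1 hδ⟩, ?_, ?_⟩
    · intro h0
      have h1 := congrArg (fun P : (clF s)[X] => P.coeff 3) h0
      simp only [coeff_add, coeff_C_mul, coeff_X_pow, coeff_X, coeff_C, coeff_zero] at h1
      norm_num at h1
      exact hne (congrArg Subtype.val h1)
    · simp only [map_add, map_mul, aeval_C, map_pow, aeval_X]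
      exact h
  subst key
  rw [zero_mul, zero_add] at h
  exact ⟨rfl, quad hb hβ hγ hδ h⟩

section

variable {t : ℕ → ℝ} (ht : FreeR fun n => (t n : ℂ)) {q : ℝ} (hq : 0 < q)
  (hqa : (q : ℂ) ∈ M.closure ∅) {y : Fin 5 → ℝ}

include ht hq hqa

/-- first coordinates of the base which are algebraic over `t 0` -/
theorem first {w z : ℂ} (hw : w ∈ M.closure (Fn t 1))
    (h : (w, z) ∈ PP ![1, t 1, t 0, t 0 * (t 1 - 1), q / t 0 * (t 1 - 1)] y (q / t 0)) :
    ∃ (a b c : ℚ), (a : ℂ) * (t 0 : ℂ) ^ 2 + b * t 0 + 2 * Complex.I * c * q = w * t 0 := by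
  obtain ⟨α, γ, h1, -⟩ := mem_PP h
  rw [Fin.sum_univ_five] at h1
  change w = (α 0 : ℂ) * ((1 : ℝ) : ℂ) + α 1 * ((t 1 : ℝ) : ℂ) + α 2 * ((t 0 : ℝ) : ℂ) +
    α 3 * ((t 0 * (t 1 - 1) : ℝ) : ℂ) + α 4 * ((q / t 0 * (t 1 - 1) : ℝ) : ℂ) +
    γ * (2 * Complex.I * ((q / t 0 : ℝ) : ℂ)) at h1
  push_cast at h1
  have n0 : (t 0 : ℂ) ∈ M.closure (Fn t 1) := Fn_mem (by norm_num)
  have r : ∀ (c : ℚ) (s : Set ℂ), (c : ℂ) ∈ M.closure s := fun c s => cl_ratCast s c
  have hI : (2 * Complex.I : ℂ) ∈ M.closure (Fn t 1) := two_I_mem _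
  have hqs : (q : ℂ) ∈ M.closure (Fn t 1) := cl_empty_le hqa
  have hqt : (q : ℂ) / t 0 ∈ M.closure (Fn t 1) := cl_div hqs n0
  have t0 : (t 0 : ℂ) ≠ 0 := ne_zero_of (Fn_not_empty ht 0)
  have q0 : (q : ℂ) ≠ 0 := by exact_mod_cast hq.ne'
  obtain ⟨k1, k2⟩ := l2 (s := Fn t 1) (b := (t 1 : ℂ))
    (u := α 0 + α 2 * t 0 - α 3 * t 0 - α 4 * ((q : ℂ) / t 0) +
      γ * (2 * Complex.I * ((q : ℂ) / t 0)) - w)
    (v := α 1 + α 3 * t 0 + α 4 * ((q : ℂ) / t 0)) (Fn_not ht le_rfl)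
    (cl_sub (cl_add (cl_sub (cl_sub (cl_add (r _ _) (cl_mul (r _ _) n0)) (cl_mul (r _ _) n0))
      (cl_mul (r _ _) hqt)) (cl_mul (r _ _) (cl_mul hI hqt))) hw)
    (cl_add (cl_add (r _ _) (cl_mul (r _ _) n0)) (cl_mul (r _ _) hqt))
    (by linear_combination -h1)
  obtain ⟨k3, -, k5⟩ := quad (Fn_not_empty ht 0) (α := (α 3 : ℂ)) (β := (α 1 : ℂ))
    (γ := (α 4 : ℂ) * q) (r _ _) (r _ _) (cl_mul (r _ _) hqa) (by
      field_simp at k2
      linear_combination k2)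
  have k6 : (α 4 : ℂ) = 0 := (mul_eq_zero.1 k5).resolve_right q0
  refine ⟨α 2, α 0, γ, ?_⟩
  rw [k3, k6] at k1
  field_simp at k1
  linear_combination k1

end

theorem xa : S_XA := by
  intro t ht q hq hqa y
  have r : ∀ (c : ℚ), (c : ℂ) ∈ M.closure ∅ := fun c => cl_ratCast ∅ c
  have hI : (2 * Complex.I : ℂ) ∈ M.closure ∅ := two_I_mem _
  have n0 : (t 0 : ℂ) ∈ M.closure (Fn t 1) := Fn_mem (by norm_num)
  have hqs : (q : ℂ) ∈ M.closure (Fn t 1) := cl_empty_le hqa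
  have hqt : (q : ℂ) / t 0 ∈ M.closure (Fn t 1) := cl_div hqs n0
  have t0 : (t 0 : ℂ) ≠ 0 := ne_zero_of (Fn_not_empty ht 0)
  have q0 : (q : ℂ) ≠ 0 := by exact_mod_cast hq.ne'
  refine ⟨?_, ?_, ?_, ?_⟩
  · intro h
    rw [Complex.ofReal_div] at h
    apply Fn_not_empty ht 0
    have h1 := cl_div hqa h
    rwa [div_div_cancel₀ q0] at h1
  · intro z h
    obtain ⟨a, b, c, h1⟩ := first ht hq hqa (cl_pow 2 n0) h
    have h2 := cubic (Fn_not_empty ht 0) (α := -1) (β := a) (γ := b)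
      (δ := 2 * Complex.I * c * q) (cl_neg (cl_one _)) (r a) (r b)
      (cl_mul (cl_mul hI (r c)) hqa) (by linear_combination h1)
    exact absurd h2.1 (by norm_num)
  · intro z h
    rw [Complex.ofReal_div] at h
    obtain ⟨a, b, c, h1⟩ := first ht hq hqa (cl_pow 2 hqt) h
    have h2 := cubic (Fn_not_empty ht 0) (α := a) (β := b) (γ := 2 * Complex.I * c * q)
      (δ := -(q : ℂ) ^ 2) (r a) (r b)
      (cl_mul (cl_mul hI (r c)) hqa) (cl_neg (cl_pow 2 hqa)) (by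
        field_simp at h1
        linear_combination h1)
    exact absurd h2.2.2.2 (neg_ne_zero.2 (pow_ne_zero 2 q0))
  · intro n hn z h
    exfalso
    rw [Complex.ofReal_div] at h
    have hs : ((Real.sqrt n : ℝ) : ℂ) ∈ M.closure ∅ := by
      apply cl_of_pow (n := 2) two_ne_zero
      rw [← Complex.ofReal_pow, Real.sq_sqrt (Nat.cast_nonneg n)]
      simpa using r n
    obtain ⟨a, b, c, h1⟩ := first ht hq hqa (cl_mul (cl_empty_le hs) hqt) h
    have h2 := quad (Fn_not_empty ht 0) (α := a) (β := b)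
      (γ := (2 * Complex.I * c - (Real.sqrt n : ℝ)) * q) (r a) (r b)
      (cl_mul (cl_sub (cl_mul hI (r c)) hs) hqa) (by
        field_simp at h1
        linear_combination h1)
    have h3 := (mul_eq_zero.1 h2.2.2).resolve_right q0
    have h4 := congrArg Complex.re h3
    have e1 : (2 * Complex.I * (c : ℂ)).re = 0 := by simp
    rw [Complex.sub_re, e1, Complex.ofReal_re, Complex.zero_re, zero_sub, neg_eq_zero,
      Real.sqrt_eq_zero (Nat.cast_nonneg n)] at h4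
    have h5 : n = 0 := by exact_mod_cast h4
    omega

end Pool.Agent.Helper38.XT
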